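import Mathlib
import Pool.Agent.Helper26.RadSum

set_option autoImplicit false

/-!
Uniform bound for the number of failures of Q1 that contain a prescribed entry.
-/

namespace Pool.Agent.Results.MP_4ab349_nt.FixedEntry

open Finset Real Pool.Agent.Helper26.RadSum

theorem result :
    ∃ C : ℝ, ∃ X₀ : ℕ, ∀ X : ℕ, X₀ ≤ X → ∀ m : ℕ, 0 < m → m ≤ X →
      ({t : ℕ × ℕ | 0 < t.1 ∧ 0 < t.2 ∧ Nat.Coprime t.1 t.2 ∧ t.1 + t.2 ≤ X ∧
          (m = t.1 ∨ m = t.2 ∨ m = t.1 + t.2) ∧
          ((∏ p ∈ (t.1 * t.2 * (t.1 + t.2)).primeFactors, p : ℕ) : ℝ) ≤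
            ((t.1 + t.2 : ℕ) : ℝ) ^
              ((1 : ℝ) - 1 / Real.sqrt (Real.log ((t.1 + t.2 : ℕ) : ℝ)))}.Finite) ∧
      (({t : ℕ × ℕ | 0 < t.1 ∧ 0 < t.2 ∧ Nat.Coprime t.1 t.2 ∧ t.1 + t.2 ≤ X ∧
          (m = t.1 ∨ m = t.2 ∨ m = t.1 + t.2) ∧
          ((∏ p ∈ (t.1 * t.2 * (t.1 + t.2)).primeFactors, p : ℕ) : ℝ) ≤
            ((t.1 + t.2 : ℕ) : ℝ) ^
              ((1 : ℝ) - 1 / Real.sqrt (Real.log ((t.1 + t.2 : ℕ) : ℝ)))}.ncard : ℕ) : ℝ) ≤
        Real.sqrt (X / ((∏ p ∈ m.primeFactors, p : ℕ) : ℝ)) *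
          Real.exp (-(1 / 2) * Real.sqrt (Real.log X) +
            C * Real.sqrt (Real.log X / Real.log (Real.log X))) := by
  refine ⟨67, ⌈Real.exp (Real.exp 4)⌉₊, ?_⟩
  intro X hX m hm hmX
  have hX1 : Real.exp (Real.exp 4) ≤ X := Nat.ceil_le.1 hX
  have hXpos : (0 : ℝ) < X := lt_of_lt_of_le (Real.exp_pos _) hX1
  have hL : Real.exp 4 ≤ log X := by
    rw [← Real.log_exp (Real.exp 4)]
    exact Real.log_le_log (Real.exp_pos _) hX1
  set S : Set (ℕ × ℕ) := {t : ℕ × ℕ | 0 < t.1 ∧ 0 < t.2 ∧ Nat.Coprime t.1 t.2 ∧ t.1 + t.2 ≤ X ∧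
          (m = t.1 ∨ m = t.2 ∨ m = t.1 + t.2) ∧
          ((∏ p ∈ (t.1 * t.2 * (t.1 + t.2)).primeFactors, p : ℕ) : ℝ) ≤
            ((t.1 + t.2 : ℕ) : ℝ) ^
              ((1 : ℝ) - 1 / Real.sqrt (Real.log ((t.1 + t.2 : ℕ) : ℝ)))} with hS
  set L := log (X : ℝ) with hLdef
  have hL0 : 0 < L := lt_of_lt_of_le (Real.exp_pos 4) hL
  have hll : 4 ≤ log L := by
    rw [← Real.log_exp 4]
    exact Real.log_le_log (Real.exp_pos 4) hL
  set G := ∑ n ∈ Finset.Icc 1 X, 1 / (rad n : ℝ) with hG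
  have hGle : G ≤ Real.exp (65 * √(L / log L)) := sum_inv_rad_le hL
  set Y := (X : ℝ) * Real.exp (-√L) with hY
  have hYpos : 0 < Y := by positivity
  have hrm : (0 : ℝ) < rad m := by exact_mod_cast rad_pos m
  set Z := √(Y / rad m) with hZ
  have hZ0 : 0 < Z := Real.sqrt_pos.2 (by positivity)
  have hZZ : Z * Z = Y / rad m := Real.mul_self_sqrt (by positivity)
  classical
  set B := (Finset.Icc 1 X).filter (fun n => (rad n : ℝ) ≤ Z) with hB
  have key : ∀ u v : ℕ, (rad m : ℝ) * (rad u * rad v) ≤ Y →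
      (rad u : ℝ) ≤ Z ∨ (rad v : ℝ) ≤ Z := by
    intro u v h
    by_contra hcon
    push Not at hcon
    have h1 : Z * Z < rad u * rad v := mul_lt_mul'' hcon.1 hcon.2 hZ0.le hZ0.le
    rw [hZZ, div_lt_iff₀ hrm] at h1
    linarith
  set T : Finset (ℕ × ℕ) := B.image (fun n => (m, n)) ∪ (B.image (fun n => (m, n - m)) ∪
    (B.image (fun n => (n, m)) ∪ (B.image (fun n => (n - m, m)) ∪
    (B.image (fun n => (n, m - n)) ∪ B.image (fun n => (m - n, n)))))) with hT
  have hcover : S ⊆ (T : Set (ℕ × ℕ)) := by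
    rintro ⟨a, b⟩ ⟨ha, hb, hco, hcX, hmem, hr⟩
    simp only at ha hb hco hcX hmem hr
    have hexc : Exc a b (a + b) := ⟨ha, hb, rfl, hco, hr⟩
    have hle := hexc.rad_mul_le hcX
    rw [← hLdef, ← hY] at hle
    rw [Finset.mem_coe, hT]
    simp only [Finset.mem_union, Finset.mem_image, hB, Finset.mem_filter, Finset.mem_Icc,
      Prod.mk.injEq]
    rcases hmem with h | h | h
    · subst h
      rcases key b (m + b) (by nlinarith) with h1 | h1
      · left; exact ⟨b, ⟨⟨by omega, by omega⟩, h1⟩, rfl, rfl⟩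
      · right; left; exact ⟨m + b, ⟨⟨by omega, by omega⟩, h1⟩, rfl, by omega⟩
    · subst h
      rcases key a (a + m) (by nlinarith) with h1 | h1
      · right; right; left; exact ⟨a, ⟨⟨by omega, by omega⟩, h1⟩, rfl, rfl⟩
      · right; right; right; left; exact ⟨a + m, ⟨⟨by omega, by omega⟩, h1⟩, by omega, rfl⟩
    · rw [← h] at hle
      rcases key a b (by nlinarith) with h1 | h1
      · right; right; right; right; left
        exact ⟨a, ⟨⟨by omega, by omega⟩, h1⟩, rfl, by omega⟩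
      · right; right; right; right; right
        exact ⟨b, ⟨⟨by omega, by omega⟩, h1⟩, by omega, rfl⟩
  refine ⟨Set.Finite.subset (Finset.finite_toSet _) hcover, ?_⟩
  have h1 : (S.ncard : ℝ) ≤ 6 * B.card := by
    have h2 := Set.ncard_le_ncard hcover (Finset.finite_toSet _)
    rw [Set.ncard_coe_finset] at h2
    have h3 : T.card ≤ 6 * B.card := by
      rw [hT]
      have e1 := Finset.card_image_le (s := B) (f := fun n => (m, n))
      have e2 := Finset.card_image_le (s := B) (f := fun n => (m, n - m))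
      have e3 := Finset.card_image_le (s := B) (f := fun n => (n, m))
      have e4 := Finset.card_image_le (s := B) (f := fun n => (n - m, m))
      have e5 := Finset.card_image_le (s := B) (f := fun n => (n, m - n))
      have e6 := Finset.card_image_le (s := B) (f := fun n => (m - n, n))
      refine (Finset.card_union_le _ _).trans ?_
      have u2 := Finset.card_union_le (B.image (fun n => (m, n - m)))
        (B.image (fun n => (n, m)) ∪ (B.image (fun n => (n - m, m)) ∪
        (B.image (fun n => (n, m - n)) ∪ B.image (fun n => (m - n, n)))))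
      have u3 := Finset.card_union_le (B.image (fun n => (n, m))) (B.image (fun n => (n - m, m)) ∪
        (B.image (fun n => (n, m - n)) ∪ B.image (fun n => (m - n, n))))
      have u4 := Finset.card_union_le (B.image (fun n => (n - m, m)))
        (B.image (fun n => (n, m - n)) ∪ B.image (fun n => (m - n, n)))
      have u5 := Finset.card_union_le (B.image (fun n => (n, m - n)))
        (B.image (fun n => (m - n, n)))
      omega
    have h4 : S.ncard ≤ 6 * B.card := h2.trans h3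
    exact_mod_cast h4
  have h2 : (B.card : ℝ) ≤ Z * G := card_rad_le X hZ0.le
  have h5 : Z = √(X / rad m) * Real.exp (-(1 / 2) * √L) := by
    rw [hZ, hY, mul_div_right_comm, Real.sqrt_mul (by positivity)]
    congr 1
    rw [Real.sqrt_eq_iff_mul_self_eq (Real.exp_pos _).le (Real.exp_pos _).le, ← Real.exp_add]
    ring_nf
  have h7 : (3 : ℝ) ≤ Real.exp √(L / log L) := three_le_exp hll rfl hL0
  have h8 : (6 : ℝ) ≤ Real.exp (2 * √(L / log L)) := by
    have : Real.exp (2 * √(L / log L)) = Real.exp √(L / log L) * Real.exp √(L / log L) := by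
      rw [← Real.exp_add]; ring_nf
    rw [this]; nlinarith
  calc (S.ncard : ℝ) ≤ 6 * B.card := h1
    _ ≤ 6 * (Z * G) := by gcongr
    _ ≤ Real.exp (2 * √(L / log L)) * (√(X / rad m) * Real.exp (-(1 / 2) * √L) *
        Real.exp (65 * √(L / log L))) := by
        rw [h5]
        gcongr
    _ = √(X / rad m) * Real.exp (-(1 / 2) * √L + 67 * √(L / log L)) := by
        rw [show -(1 / 2) * √L + 67 * √(L / log L) =
          2 * √(L / log L) + -(1 / 2) * √L + 65 * √(L / log L) by ring, Real.exp_add, Real.exp_add]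
        ring

end Pool.Agent.Results.MP_4ab349_nt.FixedEntry
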