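import Mathlib
import Pool.Agent.Helper26.CountAsym

set_option autoImplicit false

/-!
Lower bound for the number of abc-hits: for every `K < 8 √π e^{-3/4} = 6.698...` and every large
`X` there are at least `exp (K √(log X) / log log X)` triples `(a, b, c)` of coprime positive
integers with `a < b`, `a + b = c ≤ X` and `rad (abc) < c`.

Method: a linear programming bound for the `ℓ¹` norm of the shortest vector in the kernel of a
homomorphism from the lattice of exponent vectors to a finite group; if there were fewer than `q`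
short vectors (`q` prime), then some homomorphism to `ZMod q` would not vanish at any of them,
and the bound for the group enlarged by `ZMod q` would give one more.
-/

namespace Pool.Agent.Results.MP_4ab349_nt.HitCount

open Filter

theorem result (K : ℝ) (hK : K < 8 * Real.sqrt Real.pi * Real.exp (-3 / 4)) :
    ∃ X₀ : ℝ, ∀ X : ℝ, X₀ ≤ X →
      Real.exp (K * Real.sqrt (Real.log X) / Real.log (Real.log X)) ≤
        ({t : ℕ × ℕ × ℕ | 0 < t.1 ∧ t.1 < t.2.1 ∧ t.1 + t.2.1 = t.2.2 ∧ Nat.Coprime t.1 t.2.1 ∧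
          ∏ p ∈ (t.1 * t.2.1 * t.2.2).primeFactors, p < t.2.2 ∧ (t.2.2 : ℝ) ≤ X}.ncard : ℝ) := by
  obtain ⟨X₀, h⟩ := eventually_atTop.1 (Helper26.LP.uniform_count K hK)
  refine ⟨X₀, fun X hX => (h X hX).trans (le_of_eq ?_)⟩
  congr 2
  ext t
  constructor
  · rintro ⟨⟨h1, h2, h3, h4, h5⟩, h6⟩
    exact ⟨h1, h2, h3, h4, h5, h6⟩
  · rintro ⟨h1, h2, h3, h4, h5, h6⟩
    exact ⟨⟨h1, h2, h3, h4, h5⟩, h6⟩

end Pool.Agent.Results.MP_4ab349_nt.HitCount
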