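import Mathlib
import Pool.Agent.Helper26.AsymB

set_option autoImplicit false

/-!
A new lower bound in the abc problem: for every `K < 8 √π e^{-3/4} = 6.698...` and every large `X`
there is an abc-triple with `c ≤ X` and `c / rad (abc) ≥ exp (K √(log X) / log log X)`.

Method: a linear programming bound of Levenshtein / Navon-Samorodnitsky type for the `ℓ¹` norm
(Perron-Frobenius eigenfunction of a jump operator on the typical set of a Gaussian-like trial
function), applied to the lattice of exponent vectors `x` with `∏ p ^ x p = 1` modulo `2 ^ m`,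
and the prime number theorem.
-/

namespace Pool.Agent.Results.MP_4ab349_nt.LowerBound

open Filter

theorem result (K : ℝ) (hK : K < 8 * Real.sqrt Real.pi * Real.exp (-3 / 4)) :
    ∃ X₀ : ℝ, ∀ X : ℝ, X₀ ≤ X →
      ∃ a b c : ℕ, 0 < a ∧ 0 < b ∧ a + b = c ∧ Nat.Coprime a b ∧ (c : ℝ) ≤ X ∧
        ((∏ p ∈ (a * b * c).primeFactors, p : ℕ) : ℝ) *
          Real.exp (K * Real.sqrt (Real.log X) / Real.log (Real.log X)) ≤ (c : ℝ) :=
  eventually_atTop.1 (Helper26.LP.uniform_version K hK)

end Pool.Agent.Results.MP_4ab349_nt.LowerBound
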